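import Mathlib
import Pool.Agent.H.MP_bada7b_pr.A
open Matrix
namespace Pool.Agent.Results.MP_bada7b_pr.ThreeStates

/-- Ent_pi(e^f) -/
noncomputable def entExp (π f : Fin 3 → ℝ) : ℝ :=
  ∑ x, π x * (Real.exp (f x) * f x) -
    (∑ x, π x * Real.exp (f x)) * Real.log (∑ x, π x * Real.exp (f x))

/-- the Dirichlet form E(e^f, f) -/
noncomputable def dirExp (P : Matrix (Fin 3) (Fin 3) ℝ) (π f : Fin 3 → ℝ) : ℝ :=
  ∑ x, π x * (((1 - P) *ᵥ fun y => Real.exp (f y)) x * f x)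

/-- relative entropy -/
noncomputable def relEnt (μ π : Fin 3 → ℝ) : ℝ := ∑ y, μ y * Real.log (μ y / π y)

theorem result (C : ℝ) : ∃ (P : Matrix (Fin 3) (Fin 3) ℝ) (π : Fin 3 → ℝ),
    P.IsIrreducible ∧ (∀ x, ∑ y, P x y = 1) ∧ (∀ x, 0 < π x) ∧ ∑ x, π x = 1 ∧
    (∀ x y, π x * P x y = π y * P y x) ∧ ∃ T : ℝ, 0 < T ∧
    (∀ x, relEnt (NormedSpace.exp (-T • (1 - P)) x) π ≤ 1 / 2) ∧
    ∃ f : Fin 3 → ℝ, 0 < entExp π f ∧ C * T * dirExp P π f < entExp π f :=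
  Pool.Agent.H.MP_bada7b_pr.main C

end Pool.Agent.Results.MP_bada7b_pr.ThreeStates
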